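import Pool.Agent.helper84.ZD.SpecA

set_option autoImplicit false

open Complex MeasureTheory

namespace Pool.Agent.ZD

open Pool.Agent.helper84.DM Pool.Agent.helper78.ED Pool.Agent.DH

theorem IBU_norm_exp (r : ℝ) : ‖Complex.exp (-((r : ℂ) * I))‖ = 1 := by
  have h : -((r : ℂ) * I) = ((-r : ℝ) : ℂ) * I := by push_cast; ring
  rw [h, Complex.norm_exp_ofReal_mul_I]

theorem IBU_norm_ee (x : ℝ) : ‖ee x‖ = 1 := by
  unfold ee
  exact Complex.norm_exp_ofReal_mul_I _

theorem IBU_int {w : ℝ → ℂ} (hw : Integrable w) (u ξ : ℝ) :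
    Integrable (fun y => w y * Complex.exp (-(((u * Real.log y : ℝ) : ℂ) * I)) *
      ee (-(ξ * y))) := by
  have hm1 : Measurable (fun y : ℝ => Complex.exp (-(((u * Real.log y : ℝ) : ℂ) * I))) := by
    fun_prop
  have hm2 : Measurable (fun y : ℝ => ee (-(ξ * y))) := by
    unfold ee
    fun_prop
  have h1 := hw.mul_bdd (c := 1) hm1.aestronglyMeasurable
    (Filter.Eventually.of_forall fun y => (IBU_norm_exp _).le)
  exact h1.mul_bdd (c := 1) hm2.aestronglyMeasurable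
    (Filter.Eventually.of_forall fun y => (IBU_norm_ee _).le)

theorem IBU_bound {w : ℝ → ℂ} (u ξ : ℝ) :
    ‖∫ y : ℝ, w y * Complex.exp (-(((u * Real.log y : ℝ) : ℂ) * I)) * ee (-(ξ * y))‖ ≤
      ∫ y : ℝ, ‖w y‖ := by
  refine (norm_integral_le_integral_norm _).trans (le_of_eq ?_)
  congr 1
  funext y
  rw [norm_mul, norm_mul, IBU_norm_exp, IBU_norm_ee, mul_one, mul_one]

theorem IBU_deriv {w : ℝ → ℂ} (hw : SB w) (u y : ℝ) :
    HasDerivAt (fun y : ℝ => w y * Complex.exp (-(((u * Real.log y : ℝ) : ℂ) * I)))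
      (deriv w y * Complex.exp (-(((u * Real.log y : ℝ) : ℂ) * I)) -
        (u : ℂ) * I * (w y / (y : ℂ) * Complex.exp (-(((u * Real.log y : ℝ) : ℂ) * I)))) y := by
  rcases eq_or_ne y 0 with rfl | hy
  · have h0 : ∀ᶠ x in nhds (0 : ℝ), w x = 0 := by
      filter_upwards [Iio_mem_nhds (show (0 : ℝ) < 1 / 2 by norm_num)] with x hx
      exact hw.2 x (Or.inl hx)
    have h1 : deriv w 0 = 0 := by
      have : w =ᶠ[nhds 0] fun _ => (0 : ℂ) := h0
      rw [this.deriv_eq]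
      simp
    have h2 : (fun y : ℝ => w y * Complex.exp (-(((u * Real.log y : ℝ) : ℂ) * I)))
        =ᶠ[nhds 0] fun _ => (0 : ℂ) := by
      filter_upwards [h0] with x hx
      rw [hx, zero_mul]
    rw [h1, h0.self_of_nhds]
    simp only [zero_mul, zero_div, mul_zero, sub_zero]
    exact (hasDerivAt_const (0 : ℝ) (0 : ℂ)).congr_of_eventuallyEq h2
  · have hw1 : HasDerivAt w (deriv w y) y :=
      ((hw.1.differentiable (by simp)).differentiableAt).hasDerivAt
    have h1 : HasDerivAt (fun y : ℝ => u * Real.log y) (u * y⁻¹) y :=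
      (Real.hasDerivAt_log hy).const_mul u
    have h2 : HasDerivAt (fun y : ℝ => (((u * Real.log y : ℝ) : ℂ))) ((u * y⁻¹ : ℝ) : ℂ) y :=
      h1.ofReal_comp
    have h3 := ((h2.mul_const I).neg).cexp
    have h4 := hw1.mul h3
    refine h4.congr_deriv ?_
    have hyc : (y : ℂ) ≠ 0 := by exact_mod_cast hy
    simp only [Pi.neg_apply]
    push_cast
    field_simp
    ring

theorem IBU_parts (hSBO : SBO_stmt) {w : ℝ → ℂ} (hw : SB w) (u ξ : ℝ) :
    (2 * Real.pi * ξ * I : ℂ) *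
      (∫ y : ℝ, w y * Complex.exp (-(((u * Real.log y : ℝ) : ℂ) * I)) * ee (-(ξ * y))) =
    (∫ y : ℝ, deriv w y * Complex.exp (-(((u * Real.log y : ℝ) : ℂ) * I)) * ee (-(ξ * y))) -
      (u : ℂ) * I * (∫ y : ℝ, w y / (y : ℂ) * Complex.exp (-(((u * Real.log y : ℝ) : ℂ) * I)) *
        ee (-(ξ * y))) := by
  obtain ⟨hd, _, hq, hi, _⟩ := hSBO w hw
  have hid := (hSBO _ hd).2.2.2.1
  have hiq := (hSBO _ hq).2.2.2.1
  set F : ℝ → ℂ := fun y => w y * Complex.exp (-(((u * Real.log y : ℝ) : ℂ) * I)) with hF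
  set F' : ℝ → ℂ := fun y => deriv w y * Complex.exp (-(((u * Real.log y : ℝ) : ℂ) * I)) -
        (u : ℂ) * I * (w y / (y : ℂ) * Complex.exp (-(((u * Real.log y : ℝ) : ℂ) * I))) with hF'
  have hee : ∀ y : ℝ, HasDerivAt (fun y : ℝ => ee (-(ξ * y))) (-(2 * Real.pi * ξ * I : ℂ) *
      ee (-(ξ * y))) y := by
    intro y
    unfold ee
    have h1 : HasDerivAt (fun y : ℝ => 2 * Real.pi * -(ξ * y)) (2 * Real.pi * -(ξ * 1)) y := by
      have := (((hasDerivAt_id y).const_mul ξ).neg).const_mul (2 * Real.pi)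
      exact this
    have h2 := (h1.ofReal_comp.mul_const I).cexp
    refine h2.congr_deriv ?_
    push_cast
    ring
  have hI1 := IBU_int hi u ξ
  have hI2 := IBU_int hid u ξ
  have hI3 := IBU_int hiq u ξ
  have hsplit : (fun y => F' y * ee (-(ξ * y))) = fun y =>
      (deriv w y * Complex.exp (-(((u * Real.log y : ℝ) : ℂ) * I)) * ee (-(ξ * y))) -
      (u : ℂ) * I * (w y / (y : ℂ) * Complex.exp (-(((u * Real.log y : ℝ) : ℂ) * I)) *
        ee (-(ξ * y))) := by
    funext y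
    rw [hF']
    ring
  have h := integral_mul_deriv_eq_deriv_mul_of_integrable (u := F)
    (v := fun y : ℝ => ee (-(ξ * y))) (u' := F')
    (v' := fun y : ℝ => -(2 * Real.pi * ξ * I : ℂ) * ee (-(ξ * y)))
    (fun x _ => IBU_deriv hw u x) (fun x _ => hee x) ?_ ?_ ?_
  · rw [hsplit, integral_sub hI2 (hI3.const_mul _), integral_const_mul] at h
    have h2 : (fun x : ℝ => F x * (-(2 * Real.pi * ξ * I : ℂ) * ee (-(ξ * x)))) =
        fun x : ℝ => -(2 * Real.pi * ξ * I : ℂ) * (w x *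
          Complex.exp (-(((u * Real.log x : ℝ) : ℂ) * I)) * ee (-(ξ * x))) := by
      funext x
      rw [hF]
      ring
    rw [h2, integral_const_mul, neg_mul, neg_inj] at h
    exact h
  · have h2 : (F * fun y : ℝ => -(2 * Real.pi * ξ * I : ℂ) * ee (-(ξ * y))) =
        fun x : ℝ => -(2 * Real.pi * ξ * I : ℂ) * (w x *
          Complex.exp (-(((u * Real.log x : ℝ) : ℂ) * I)) * ee (-(ξ * x))) := by
      funext x
      rw [hF, Pi.mul_apply]
      ring
    rw [h2]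
    exact hI1.const_mul _
  · have h2 : (F' * fun y : ℝ => ee (-(ξ * y))) = fun y => F' y * ee (-(ξ * y)) := rfl
    rw [h2, hsplit]
    exact hI2.sub (hI3.const_mul _)
  · exact hI1

theorem IBU (hSBO : SBO_stmt) : IBU_stmt := by
  have key : ∀ j : ℕ, ∀ w : ℝ → ℂ, SB w → ∃ C : ℝ, 0 ≤ C ∧ ∀ u ξ : ℝ,
      ‖∫ y : ℝ, w y * Complex.exp (-(((u * Real.log y : ℝ) : ℂ) * I)) * ee (-(ξ * y))‖ * |ξ| ^ j
        ≤ C * (1 + |u|) ^ j := by
    intro j
    induction j with
    | zero =>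
      intro w hw
      refine ⟨∫ y : ℝ, ‖w y‖, integral_nonneg fun y => norm_nonneg _, fun u ξ => ?_⟩
      rw [pow_zero, pow_zero, mul_one, mul_one]
      exact IBU_bound u ξ
    | succ j ih =>
      intro w hw
      obtain ⟨hd, _, hq, _, _⟩ := hSBO w hw
      obtain ⟨C1, hC1, h1⟩ := ih _ hd
      obtain ⟨C2, hC2, h2⟩ := ih _ hq
      refine ⟨C1 + C2, by positivity, fun u ξ => ?_⟩
      have hp := IBU_parts hSBO hw u ξ
      set I0 := ∫ y : ℝ, w y * Complex.exp (-(((u * Real.log y : ℝ) : ℂ) * I)) * ee (-(ξ * y))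
        with hI0
      set I1 := ∫ y : ℝ, deriv w y * Complex.exp (-(((u * Real.log y : ℝ) : ℂ) * I)) *
        ee (-(ξ * y)) with hI1
      set I2 := ∫ y : ℝ, w y / (y : ℂ) * Complex.exp (-(((u * Real.log y : ℝ) : ℂ) * I)) *
        ee (-(ξ * y)) with hI2
      have h3 : ‖I0‖ * |ξ| ≤ ‖I1‖ + |u| * ‖I2‖ := by
        have e1 : ‖(2 * Real.pi * ξ * I : ℂ) * I0‖ = 2 * Real.pi * |ξ| * ‖I0‖ := by
          rw [norm_mul, norm_mul, norm_mul, norm_mul, Complex.norm_I, mul_one]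
          simp only [Complex.norm_real, Real.norm_eq_abs, Complex.norm_ofNat]
          rw [abs_of_pos Real.pi_pos]
        have e2 : ‖I1 - (u : ℂ) * I * I2‖ ≤ ‖I1‖ + |u| * ‖I2‖ := by
          refine (norm_sub_le _ _).trans (le_of_eq ?_)
          rw [norm_mul, norm_mul, Complex.norm_I, mul_one, Complex.norm_real, Real.norm_eq_abs]
        rw [← hp, e1] at e2
        have e3 : 1 ≤ 2 * Real.pi := by linarith [Real.pi_gt_three]
        have e4 : 0 ≤ |ξ| * ‖I0‖ := by positivity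
        nlinarith
      have h4 := h1 u ξ
      have h5 := h2 u ξ
      have h6 : 0 ≤ |ξ| ^ j := by positivity
      have h7 : 0 ≤ |u| := abs_nonneg u
      have h8 : 0 ≤ (1 + |u|) ^ j := by positivity
      calc ‖I0‖ * |ξ| ^ (j + 1) = (‖I0‖ * |ξ|) * |ξ| ^ j := by ring
        _ ≤ (‖I1‖ + |u| * ‖I2‖) * |ξ| ^ j := mul_le_mul_of_nonneg_right h3 h6
        _ = ‖I1‖ * |ξ| ^ j + |u| * (‖I2‖ * |ξ| ^ j) := by ring
        _ ≤ C1 * (1 + |u|) ^ j + |u| * (C2 * (1 + |u|) ^ j) :=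
            add_le_add h4 (mul_le_mul_of_nonneg_left h5 h7)
        _ ≤ (C1 + C2) * (1 + |u|) ^ (j + 1) := by
            rw [pow_succ]
            have e5 : 0 ≤ C1 * (1 + |u|) ^ j * |u| := by positivity
            have e6 : 0 ≤ C2 * (1 + |u|) ^ j := by positivity
            nlinarith
  intro w hw j
  exact key j w hw

end Pool.Agent.ZD
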